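import Pool.Agent.Lib_helper8.QP.Defs

/-! Block A, first part: basics on `av`, `ev`, degrees. -/

set_option autoImplicit false
set_option linter.unusedSectionVars false

open Finset Polynomial

namespace Pool.Agent.Lib_helper8.QP

open Pool.Agent.Lib_helper30.AA

variable {I : Type} [Fintype I] [DecidableEq I]

@[simp] lemma sg_false : sg false = 1 := by simp [sg]
@[simp] lemma sg_true : sg true = -1 := by simp [sg]

lemma sg_not (b : Bool) : sg (!b) = - sg b := by cases b <;> simp

lemma sg_mul_self (b : Bool) : sg b * sg b = 1 := by cases b <;> simp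

lemma sg_sq (b : Bool) : sg b ^ 2 = 1 := by cases b <;> simp

lemma abs_sg (b : Bool) : |sg b| = 1 := by cases b <;> simp

lemma chi_eq (S : Finset I) (x : I → Bool) : chi S x = ∏ i ∈ S, sg (x i) := rfl

lemma two_pow_pos : (0 : ℝ) < (2 : ℝ) ^ (Fintype.card I) := by positivity

/-! ### `av` -/

lemma av_const (c : ℝ) : av (fun _ : I → Bool => c) = c := by
  unfold av
  rw [Finset.sum_const, Finset.card_univ, nsmul_eq_mul]
  simp

lemma av_add (g h : (I → Bool) → ℝ) : av (fun x => g x + h x) = av g + av h := by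
  unfold av; rw [Finset.sum_add_distrib, mul_add]

lemma av_sub (g h : (I → Bool) → ℝ) : av (fun x => g x - h x) = av g - av h := by
  unfold av; rw [Finset.sum_sub_distrib, mul_sub]

lemma av_neg (g : (I → Bool) → ℝ) : av (fun x => - g x) = - av g := by
  unfold av; rw [Finset.sum_neg_distrib, mul_neg]

lemma av_mul_left (c : ℝ) (g : (I → Bool) → ℝ) : av (fun x => c * g x) = c * av g := by
  unfold av; rw [← Finset.mul_sum]; ring

lemma av_mul_right (c : ℝ) (g : (I → Bool) → ℝ) : av (fun x => g x * c) = av g * c := by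
  unfold av; rw [← Finset.sum_mul]; ring

lemma av_sum {ι : Type*} (s : Finset ι) (g : ι → (I → Bool) → ℝ) :
    av (fun x => ∑ a ∈ s, g a x) = ∑ a ∈ s, av (g a) := by
  unfold av
  rw [Finset.sum_comm, Finset.mul_sum]

lemma av_nonneg {g : (I → Bool) → ℝ} (hg : ∀ x, 0 ≤ g x) : 0 ≤ av g := by
  unfold av
  have := Finset.sum_nonneg (fun x (_ : x ∈ (Finset.univ : Finset (I → Bool))) => hg x)
  positivity

lemma av_mono {g h : (I → Bool) → ℝ} (hg : ∀ x, g x ≤ h x) : av g ≤ av h := by
  unfold av
  have := Finset.sum_le_sum (fun x (_ : x ∈ (Finset.univ : Finset (I → Bool))) => hg x)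
  gcongr

lemma abs_av_le (g : (I → Bool) → ℝ) : |av g| ≤ av (fun x => |g x|) := by
  rw [abs_le]
  constructor
  · rw [← av_neg]; exact av_mono fun x => neg_abs_le _
  · exact av_mono fun x => le_abs_self _

lemma av_le_const {g : (I → Bool) → ℝ} {c : ℝ} (hg : ∀ x, g x ≤ c) : av g ≤ c := by
  calc av g ≤ av (fun _ => c) := av_mono hg
    _ = c := av_const c

/-- Averages are invariant under a bijection. -/
lemma av_comp (e : (I → Bool) ≃ (I → Bool)) (g : (I → Bool) → ℝ) :
    av (fun x => g (e x)) = av g := by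
  unfold av; rw [Equiv.sum_comp e g]

lemma av_flip (j : I) (g : (I → Bool) → ℝ) : av (fun x => g (flip j x)) = av g :=
  av_comp (flipEquiv j) g

lemma av_cs (g h : (I → Bool) → ℝ) :
    av (fun x => g x * h x) ^ 2 ≤ av (fun x => g x ^ 2) * av (fun x => h x ^ 2) := by
  unfold av
  have := Finset.sum_mul_sq_le_sq_mul_sq (Finset.univ : Finset (I → Bool)) g h
  have h2 : (0:ℝ) < ((2 : ℝ) ^ (Fintype.card I))⁻¹ := by positivity
  calc (((2 : ℝ) ^ (Fintype.card I))⁻¹ * ∑ x : I → Bool, g x * h x) ^ 2
      = (((2 : ℝ) ^ (Fintype.card I))⁻¹) ^ 2 * (∑ x : I → Bool, g x * h x) ^ 2 := by ring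
    _ ≤ (((2 : ℝ) ^ (Fintype.card I))⁻¹) ^ 2 * ((∑ x : I → Bool, g x ^ 2) * ∑ x, h x ^ 2) := by
        gcongr
    _ = _ := by ring

/-! ### Splitting along one coordinate -/

lemma update_flip (j : I) (x : I → Bool) (b : Bool) :
    Function.update (flip j x) j b = Function.update x j b := by
  unfold Pool.Agent.Lib_helper30.AA.flip; rw [Function.update_idem]

lemma D_flip (j : I) (f : (I → Bool) → ℝ) (x : I → Bool) : D j f (flip j x) = D j f x := by
  unfold D; rw [update_flip, update_flip]

lemma D_update (j : I) (f : (I → Bool) → ℝ) (x : I → Bool) (b : Bool) :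
    D j f (Function.update x j b) = D j f x := by
  unfold D; rw [Function.update_idem, Function.update_idem]

/-- `f x - f (flip j x) = 2 sg (x j) D_j f`. -/
lemma sub_flip (j : I) (f : (I → Bool) → ℝ) (x : I → Bool) :
    f x - f (flip j x) = 2 * sg (x j) * D j f x := by
  unfold D Pool.Agent.Lib_helper30.AA.flip
  cases h : x j
  · rw [show Function.update x j false = x by rw [← h, Function.update_eq_self]]
    simp
    ring
  · rw [show Function.update x j true = x by rw [← h, Function.update_eq_self]]
    simp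
    ring

/-- Even part. -/
noncomputable def Ev (j : I) (f : (I → Bool) → ℝ) (x : I → Bool) : ℝ :=
  (f (Function.update x j false) + f (Function.update x j true)) / 2

lemma decomp (j : I) (f : (I → Bool) → ℝ) (x : I → Bool) :
    f x = Ev j f x + sg (x j) * D j f x := by
  unfold D Ev
  cases h : x j
  · rw [show Function.update x j false = x by rw [← h, Function.update_eq_self]]
    simp; ring
  · rw [show Function.update x j true = x by rw [← h, Function.update_eq_self]]
    simp; ring

lemma Ev_flip (j : I) (f : (I → Bool) → ℝ) (x : I → Bool) : Ev j f (flip j x) = Ev j f x := by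
  unfold Ev; rw [update_flip, update_flip]

lemma sg_flip_self (j : I) (x : I → Bool) : sg (flip j x j) = - sg (x j) := by
  simp [Pool.Agent.Lib_helper30.AA.flip, sg_not]

/-- An `x_j`-odd function has mean zero. -/
lemma av_odd (j : I) {g : (I → Bool) → ℝ} (hg : ∀ x, g (flip j x) = - g x) : av g = 0 := by
  have h := av_flip j g
  simp_rw [hg] at h
  rw [av_neg] at h
  linarith

lemma av_sg_mul (j : I) (g : (I → Bool) → ℝ) : av (fun x => sg (x j) * g x) = av (D j g) := by
  have h1 : ∀ x, sg (x j) * g x = sg (x j) * Ev j g x + D j g x := by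
    intro x
    conv_lhs => rw [decomp j g x]
    have := sg_mul_self (x j)
    linear_combination (D j g x) * this
  simp_rw [h1]
  rw [av_add, av_odd j, zero_add]
  intro x
  rw [Ev_flip, sg_flip_self]; ring

/-! ### The degree -/

lemma coef_eq_av (f : (I → Bool) → ℝ) (S : Finset I) : coef f S = av (fun x => f x * chi S x) :=
  rfl

lemma lowDeg_mono {a b : ℕ} (hab : a ≤ b) {f : (I → Bool) → ℝ} (hf : LowDeg a f) : LowDeg b f :=
  fun S hS => hf S (by omega)

lemma lowDeg_sum {ι : Type} {d : ℕ} (s : Finset ι) {g : ι → (I → Bool) → ℝ}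
    (hg : ∀ a ∈ s, LowDeg d (g a)) : LowDeg d (fun x => ∑ a ∈ s, g a x) := by
  intro S hS
  rw [coef_sum]
  exact Finset.sum_eq_zero fun a ha => hg a ha S hS

lemma lowDeg_const_mul {d : ℕ} (c : ℝ) {g : (I → Bool) → ℝ} (hg : LowDeg d g) :
    LowDeg d (fun x => c * g x) := by
  intro S hS
  rw [coef_const_mul, hg S hS, mul_zero]

lemma lowDeg_chi (S : Finset I) : LowDeg S.card (chi S) := by
  intro T hT
  rw [coef_chi, if_neg]
  rintro rfl
  omega

lemma lowDeg_const (c : ℝ) : LowDeg 0 (fun _ : I → Bool => c) := by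
  have h := lowDeg_const_mul c (lowDeg_chi (∅ : Finset I))
  have h2 : (fun x : I → Bool => c * chi ∅ x) = fun _ => c := by
    funext x; simp [chi]
  rw [h2] at h
  simpa using h

lemma chi_singleton (i : I) (x : I → Bool) : chi {i} x = sg (x i) := by
  simp [chi_eq]

lemma lowDeg_sg (i : I) : LowDeg 1 (fun x : I → Bool => sg (x i)) := by
  have h := lowDeg_chi ({i} : Finset I)
  have h2 : chi ({i} : Finset I) = fun x : I → Bool => sg (x i) := by
    funext x; exact chi_singleton i x
  rw [h2] at h
  simpa using h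

lemma lowDeg_add {d : ℕ} {f g : (I → Bool) → ℝ} (hf : LowDeg d f) (hg : LowDeg d g) :
    LowDeg d (fun x => f x + g x) := by
  intro S hS
  have := hf S hS
  have h2 := hg S hS
  rw [coef_eq_av] at *
  simp_rw [add_mul]
  rw [av_add, this, h2, add_zero]

lemma chi_mul_chi (A B : Finset I) (x : I → Bool) :
    chi A x * chi B x = chi (symmDiff A B) x := by
  rw [chi_eq, chi_eq, chi_eq]
  rw [← Finset.prod_sdiff (Finset.inter_subset_left : A ∩ B ⊆ A),
    ← Finset.prod_sdiff (Finset.inter_subset_right : A ∩ B ⊆ B)]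
  have h1 : (∏ i ∈ A ∩ B, sg (x i)) * (∏ i ∈ A ∩ B, sg (x i)) = 1 := by
    rw [← Finset.prod_mul_distrib]
    exact Finset.prod_eq_one fun i _ => sg_mul_self _
  have h2 : ∏ i ∈ symmDiff A B, sg (x i) =
      (∏ i ∈ A \ (A ∩ B), sg (x i)) * ∏ i ∈ B \ (A ∩ B), sg (x i) := by
    rw [← Finset.prod_union]
    · apply Finset.prod_congr _ (fun _ _ => rfl)
      ext i
      simp only [Finset.mem_symmDiff, Finset.mem_union, Finset.mem_sdiff, Finset.mem_inter]
      tauto
    · rw [Finset.disjoint_left]
      intro i hi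
      simp only [Finset.mem_sdiff, Finset.mem_inter] at *
      tauto
  rw [h2]
  linear_combination ((∏ i ∈ A \ (A ∩ B), sg (x i)) * ∏ i ∈ B \ (A ∩ B), sg (x i)) * h1

theorem lowDeg_mul {a b : ℕ} {f g : (I → Bool) → ℝ} (hf : LowDeg a f) (hg : LowDeg b g) :
    LowDeg (a + b) (fun x => f x * g x) := by
  intro S hS
  have h1 : (fun x => f x * g x) = fun x => ∑ A : Finset I, ∑ B : Finset I,
      (coef f A * coef g B) * chi (symmDiff A B) x := by
    funext x
    rw [inversion f x, inversion g x, Finset.sum_mul_sum]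
    refine Finset.sum_congr rfl fun A _ => Finset.sum_congr rfl fun B _ => ?_
    rw [← chi_mul_chi]; ring
  rw [h1, coef_sum]
  refine Finset.sum_eq_zero fun A _ => ?_
  rw [coef_sum]
  refine Finset.sum_eq_zero fun B _ => ?_
  rw [coef_const_mul, coef_chi]
  split_ifs with h
  · by_cases hA : a < A.card
    · rw [hf A hA]; ring
    · by_cases hB : b < B.card
      · rw [hg B hB]; ring
      · exfalso
        have h3 : (symmDiff A B).card ≤ A.card + B.card := by
          calc (symmDiff A B).card ≤ (A ∪ B).card := by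
                apply Finset.card_le_card
                intro i hi
                simp only [Finset.mem_symmDiff, Finset.mem_union] at *
                tauto
            _ ≤ A.card + B.card := Finset.card_union_le A B
        rw [h] at h3
        omega
  · ring

lemma lowDeg_sq {a : ℕ} {f : (I → Bool) → ℝ} (hf : LowDeg a f) :
    LowDeg (2 * a) (fun x => f x ^ 2) := by
  have h := lowDeg_mul hf hf
  have h2 : (fun x => f x ^ 2) = fun x => f x * f x := by funext x; ring
  rw [h2, two_mul]; exact h

lemma lowDeg_comp_flip {d : ℕ} {f : (I → Bool) → ℝ} (hf : LowDeg d f) (j : I) :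
    LowDeg d (fun x => f (flip j x)) := by
  intro S hS
  rw [coef_comp_flip, hf S hS]
  simp

theorem lowDeg_res {d : ℕ} {f : (I → Bool) → ℝ} (hf : LowDeg d f) (R : Finset I) (z : I → Bool) :
    LowDeg d (res R z f) := by
  intro S hS
  have h := coef_mix_eq_zero (V := Rᶜ) (x₀ := z) hf hS
  have h2 : res R z f = fun x => f (mix Rᶜ z x) := by
    funext x
    unfold res mix
    congr 1
    funext i
    by_cases hi : i ∈ R <;> simp [hi]
  rw [h2]; exact h

lemma coef_D (j : I) (f : (I → Bool) → ℝ) (S : Finset I) :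
    coef (D j f) S = if j ∈ S then 0 else coef f (insert j S) := by
  split_ifs with h
  · rw [coef_eq_av]
    apply av_odd j
    intro x
    rw [D_flip, chi_flip_of_mem h]; ring
  · have h1 : coef f (insert j S) = av (fun x => sg (x j) * (f x * chi S x)) := by
      rw [coef_eq_av]
      congr 1
      funext x
      rw [chi_eq, Finset.prod_insert h, ← chi_eq]; ring
    rw [h1, av_sg_mul, coef_eq_av]
    congr 1
    funext x
    have h2 : ∀ b, chi S (Function.update x j b) = chi S x := by
      intro b
      rw [chi_eq, chi_eq]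
      refine Finset.prod_congr rfl fun i hi => ?_
      rw [Function.update_of_ne (by rintro rfl; exact h hi)]
    simp only [D, h2]
    ring

theorem lowDeg_D {d : ℕ} {f : (I → Bool) → ℝ} (hf : LowDeg d f) (j : I) : LowDeg d (D j f) := by
  intro S hS
  rw [coef_D]
  split_ifs with h
  · rfl
  · apply hf
    rw [Finset.card_insert_of_notMem h]; omega

end Pool.Agent.Lib_helper8.QP
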