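import Pool.Agent.Lib_helper8.QP.Basic

/-! Block A: the signed product expectation `ev`. -/

set_option autoImplicit false
set_option linter.unusedSectionVars false

open Finset Polynomial

namespace Pool.Agent.Lib_helper8.QP

open Pool.Agent.Lib_helper30.AA

variable {I : Type} [Fintype I] [DecidableEq I]

lemma ev_add (b : I → ℝ) (g h : (I → Bool) → ℝ) : ev b (fun x => g x + h x) = ev b g + ev b h := by
  unfold ev; rw [← av_add]; congr 1; funext x; ring

lemma ev_sub (b : I → ℝ) (g h : (I → Bool) → ℝ) : ev b (fun x => g x - h x) = ev b g - ev b h := by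
  unfold ev; rw [← av_sub]; congr 1; funext x; ring

lemma ev_const_mul (b : I → ℝ) (c : ℝ) (g : (I → Bool) → ℝ) :
    ev b (fun x => c * g x) = c * ev b g := by
  unfold ev; rw [← av_mul_left]; congr 1; funext x; ring

lemma ev_sum {ι : Type*} (b : I → ℝ) (s : Finset ι) (g : ι → (I → Bool) → ℝ) :
    ev b (fun x => ∑ a ∈ s, g a x) = ∑ a ∈ s, ev b (g a) := by
  unfold ev; rw [← av_sum]; congr 1; funext x; rw [Finset.sum_mul]

theorem ev_zero (g : (I → Bool) → ℝ) : ev (fun _ => 0) g = av g := by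
  unfold ev; simp

lemma weight_nonneg {b : I → ℝ} (hb : ∀ i, |b i| ≤ 1) (x : I → Bool) :
    0 ≤ ∏ i, (1 + b i * sg (x i)) := by
  apply Finset.prod_nonneg
  intro i _
  have h1 : |b i * sg (x i)| ≤ 1 := by rw [abs_mul, abs_sg, mul_one]; exact hb i
  have := neg_abs_le (b i * sg (x i))
  linarith

theorem ev_nonneg {b : I → ℝ} {g : (I → Bool) → ℝ} (hb : ∀ i, |b i| ≤ 1) (hg : ∀ x, 0 ≤ g x) :
    0 ≤ ev b g := av_nonneg fun x => mul_nonneg (hg x) (weight_nonneg hb x)

theorem ev_mono {b : I → ℝ} {g h : (I → Bool) → ℝ} (hb : ∀ i, |b i| ≤ 1)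
    (hg : ∀ x, g x ≤ h x) : ev b g ≤ ev b h :=
  av_mono fun x => mul_le_mul_of_nonneg_right (hg x) (weight_nonneg hb x)

/-- Averages of products of functions of one coordinate. -/
lemma av_prod (φ : I → Bool → ℝ) :
    av (fun x : I → Bool => ∏ i, φ i (x i)) = ∏ i, ((φ i false + φ i true) / 2) := by
  unfold av
  have h1 : ∑ x : I → Bool, ∏ i, φ i (x i) = ∏ i, ∑ b : Bool, φ i b := by
    rw [Finset.prod_univ_sum, Fintype.piFinset_univ]
  rw [h1, Finset.prod_div_distrib, Finset.prod_const, Finset.card_univ, inv_mul_eq_div]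
  congr 1
  refine Finset.prod_congr rfl fun i _ => ?_
  simp [add_comm]

theorem ev_prod (b : I → ℝ) (φ : I → Bool → ℝ) :
    ev b (fun x => ∏ i, φ i (x i)) =
      ∏ i, ((1 + b i) / 2 * φ i false + (1 - b i) / 2 * φ i true) := by
  unfold ev
  simp_rw [← Finset.prod_mul_distrib]
  rw [av_prod (fun i c => φ i c * (1 + b i * sg c))]
  refine Finset.prod_congr rfl fun i _ => ?_
  simp; ring

theorem ev_const (b : I → ℝ) (c : ℝ) : ev b (fun _ => c) = c := by
  have h := ev_prod b (fun _ _ => 1)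
  simp only [Finset.prod_const_one, mul_one] at h
  have h2 : ev b (fun _ => c) = c * ev b (fun _ => 1) := by
    rw [← ev_const_mul]; simp
  rw [h2, h]
  have h3 : ∀ i : I, (1 + b i) / 2 + (1 - b i) / 2 = 1 := fun i => by ring
  simp [h3]

lemma ev_chi (b : I → ℝ) (S : Finset I) : ev b (chi S) = ∏ i ∈ S, b i := by
  have h := ev_prod b (fun i c => if i ∈ S then sg c else 1)
  have h2 : (fun x : I → Bool => ∏ i, (if i ∈ S then sg (x i) else 1)) = chi S := by
    funext x
    rw [chi_eq]
    rw [Finset.prod_ite_mem, Finset.univ_inter]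
  rw [h2] at h
  rw [h]
  have h3 : ∀ i, ((1 + b i) / 2 * (if i ∈ S then sg false else 1) +
      (1 - b i) / 2 * (if i ∈ S then sg true else 1)) = if i ∈ S then b i else 1 := by
    intro i
    split_ifs <;> simp <;> ring
  simp_rw [h3]
  rw [Finset.prod_ite_mem, Finset.univ_inter]

lemma ev_eq_sum (b : I → ℝ) (g : (I → Bool) → ℝ) :
    ev b g = ∑ S : Finset I, coef g S * ∏ i ∈ S, b i := by
  have h : g = fun x => ∑ S : Finset I, coef g S * chi S x := by
    funext x; exact inversion g x
  conv_lhs => rw [h]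
  rw [ev_sum]
  refine Finset.sum_congr rfl fun S _ => ?_
  rw [ev_const_mul, ev_chi]

/-- At a vertex of the cube. -/
lemma ev_vertex (x : I → Bool) (g : (I → Bool) → ℝ) : ev (fun i => sg (x i)) g = g x := by
  rw [ev_eq_sum, inversion g x]
  rfl

theorem ev_poly {d : ℕ} {g : (I → Bool) → ℝ} (hg : LowDeg d g) (b c : I → ℝ) :
    ∃ P : ℝ[X], P.natDegree ≤ d ∧ ∀ t, P.eval t = ev (fun i => b i + t * c i) g := by
  refine ⟨∑ S ∈ univ.filter (fun S : Finset I => S.card ≤ d),
    C (coef g S) * ∏ i ∈ S, (C (b i) + X * C (c i)), ?_, ?_⟩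
  · apply natDegree_sum_le_of_forall_le
    intro S hS
    rw [Finset.mem_filter] at hS
    refine (natDegree_C_mul_le _ _).trans ?_
    refine (natDegree_prod_le _ _).trans ?_
    calc ∑ i ∈ S, (C (b i) + X * C (c i)).natDegree ≤ ∑ i ∈ S, 1 := by
          refine Finset.sum_le_sum fun i _ => ?_
          compute_degree
      _ = S.card := by simp
      _ ≤ d := hS.2
  · intro t
    rw [ev_eq_sum, eval_finsetSum, Finset.sum_filter]
    refine Finset.sum_congr rfl fun S _ => ?_
    split_ifs with h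
    · rw [eval_mul, eval_C, eval_prod]
      congr 1
      refine Finset.prod_congr rfl fun i _ => ?_
      simp only [eval_add, eval_mul, eval_C, eval_X]
    · rw [hg S (by omega), zero_mul]

theorem hasDerivAt_ev (b c : I → ℝ) (g : (I → Bool) → ℝ) (t : ℝ) :
    HasDerivAt (fun t => ev (fun i => b i + t * c i) g)
      (∑ i, c i * ev (fun k => b k + t * c k) (D i g)) t := by
  have h1 : ∀ x : I → Bool, HasDerivAt (fun t => ∏ i, (1 + (b i + t * c i) * sg (x i)))
      (∑ i, (∏ k ∈ univ.erase i, (1 + (b k + t * c k) * sg (x k))) • (c i * sg (x i))) t := by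
    intro x
    apply HasDerivAt.fun_finsetProd
    intro i _
    have h2 : HasDerivAt (fun t => b i + t * c i) (c i) t := by
      simpa using ((hasDerivAt_id t).mul_const (c i)).const_add (b i)
    exact (h2.mul_const (sg (x i))).const_add 1
  have h2 : HasDerivAt (fun t => ev (fun i => b i + t * c i) g)
      (av fun x => g x * ∑ i, (∏ k ∈ univ.erase i, (1 + (b k + t * c k) * sg (x k))) •
        (c i * sg (x i))) t := by
    unfold ev av
    apply HasDerivAt.const_mul
    apply HasDerivAt.fun_sum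
    intro x _
    exact (h1 x).const_mul (g x)
  convert h2 using 1
  simp_rw [Finset.mul_sum]
  rw [av_sum]
  refine Finset.sum_congr rfl fun i _ => ?_
  have h3 : ∀ x : I → Bool, g x * (∏ k ∈ univ.erase i, (1 + (b k + t * c k) * sg (x k))) •
      (c i * sg (x i)) = c i * (sg (x i) * (g x *
        ∏ k ∈ univ.erase i, (1 + (b k + t * c k) * sg (x k)))) := by
    intro x; simp only [smul_eq_mul]; ring
  simp_rw [h3]
  rw [av_mul_left, av_sg_mul]
  congr 1
  have hw : ∀ (x : I → Bool) (β : Bool), ∏ k ∈ univ.erase i,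
      (1 + (b k + t * c k) * sg (Function.update x i β k)) =
      ∏ k ∈ univ.erase i, (1 + (b k + t * c k) * sg (x k)) := by
    intro x β
    refine Finset.prod_congr rfl fun k hk => ?_
    rw [Function.update_of_ne (Finset.ne_of_mem_erase hk)]
  have h4 : D i (fun x => g x *
      ∏ k ∈ univ.erase i, (1 + (b k + t * c k) * sg (x k))) = fun x =>
      D i g x * ∏ k ∈ univ.erase i, (1 + (b k + t * c k) * sg (x k)) := by
    funext x
    unfold D
    simp only [hw]
    ring
  rw [h4]
  unfold ev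
  beta_reduce
  have h5 : ∀ x : I → Bool, D i g x * ∏ k, (1 + (b k + t * c k) * sg (x k)) =
      D i g x * ∏ k ∈ univ.erase i, (1 + (b k + t * c k) * sg (x k)) +
      sg (x i) * ((b i + t * c i) * (D i g x *
        ∏ k ∈ univ.erase i, (1 + (b k + t * c k) * sg (x k)))) := by
    intro x
    rw [← Finset.mul_prod_erase univ _ (Finset.mem_univ i)]
    ring
  simp_rw [h5]
  rw [av_add, av_odd i (g := fun x => sg (x i) * ((b i + t * c i) * (D i g x *
        ∏ k ∈ univ.erase i, (1 + (b k + t * c k) * sg (x k)))))]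
  · rw [add_zero]
  · intro x
    rw [sg_flip_self, D_flip]
    have h6 : ∏ k ∈ univ.erase i, (1 + (b k + t * c k) *
        sg (Pool.Agent.Lib_helper30.AA.flip i x k)) =
        ∏ k ∈ univ.erase i, (1 + (b k + t * c k) * sg (x k)) := by
      refine Finset.prod_congr rfl fun k hk => ?_
      rw [flip_apply_of_ne (Finset.ne_of_mem_erase hk)]
    rw [h6]; ring

lemma hasDerivAt_ev_zero (c : I → ℝ) (g : (I → Bool) → ℝ) :
    HasDerivAt (fun t => ev (fun i => t * c i) g) (∑ i, c i * av (D i g)) 0 := by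
  have h := hasDerivAt_ev (fun _ => 0) c g 0
  simp only [zero_add, zero_mul] at h
  simp_rw [ev_zero] at h
  exact h

lemma ev_le_one {b : I → ℝ} {g : (I → Bool) → ℝ} (hb : ∀ i, |b i| ≤ 1) (hg : ∀ x, g x ≤ 1) :
    ev b g ≤ 1 := by
  calc ev b g ≤ ev b (fun _ => 1) := ev_mono hb hg
    _ = 1 := ev_const b 1

end Pool.Agent.Lib_helper8.QP
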