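import Pool.Agent.Lib_helper8.QP.PsiFlow
import Pool.Agent.Lib_helper15.QP.FC

/-! Quasi-polynomial Aaronson-Ambainis theorem: final assembly. -/

set_option autoImplicit false
set_option linter.unusedSectionVars false

open Finset Polynomial

namespace Pool.Agent.Lib_helper8.QP

open Pool.Agent.Lib_helper30.AA Pool.Agent.Lib_helper40.QP

variable {I : Type} [Fintype I] [DecidableEq I]

theorem quasipoly {d : ℕ} (hd1 : 1 ≤ d) (f : (I → Bool) → ℝ)
    (hf : ∀ x, |f x| ≤ 1) (hd : LowDeg d f) {V : ℝ} (hV : 0 < V)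
    (hVar : V ≤ av (fun x => f x ^ 2) - av f ^ 2) :
    ∃ j, Real.exp (-10000 * (Real.log (2 * d) ^ 3 + Real.log (2 * d) * Real.log (2 / V))) ≤
      inf f j := by
  have hV1 : V ≤ 1 := by
    have h1 : av (fun x => f x ^ 2) ≤ 1 := by
      refine av_le_const fun x => ?_
      rw [← sq_abs]
      nlinarith [abs_nonneg (f x), hf x]
    nlinarith [sq_nonneg (av f)]
  obtain ⟨α, K, R, m0, W, θ, k, hα, hα1, hK, hKα, hR, hm0, hm1, hW0, hW, hk, hk1, hθ, hlt⟩ :=
    Lib_helper15.QP.params hd1 hV hV1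
  have hθ0 : 0 ≤ θ := (Real.exp_pos _).le.trans hθ
  by_contra hcon
  push Not at hcon
  have hinf : ∀ j, inf f j ≤ θ := fun j => (hcon j).le.trans hθ
  have hd0 : (1 : ℝ) ≤ d := by exact_mod_cast hd1
  have hinv : 1 / (2 * (d : ℝ)) ≤ 1 / 2 := by
    apply one_div_le_one_div_of_le (by norm_num); linarith
  have hinv0 : 0 < 1 / (2 * (d : ℝ)) := by positivity
  set E : ℝ := d * θ ^ α + Err d α K R m0 W with hE
  have hE0 : 0 ≤ E := by
    have h1 : 0 ≤ θ ^ α := Real.rpow_nonneg hθ0 _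
    have h2 : 0 ≤ Err d α K R m0 W := Err_nonneg hm0.le
    rw [hE]
    positivity
  have hexp : 0 ≤ α * (R + 2) := by positivity
  have hM : ∀ ρ ∈ Set.Icc (0 : ℝ) (1 - 1 / (2 * d)),
      rs ρ (fun S => av (fun z => ∑ j, inf (res S z f) j ^ (1 + α))) ≤
        E * (2 * d) ^ (α * (R + 2)) := by
    intro ρ hρ
    have hρ1 : ρ < 1 := by linarith [hρ.2]
    have h1 := psi_flow hd1 hf hd hα hα1 hK hKα hR hm0 hm1 hW0 hW hinf hθ0
      (ρ := ρ) ⟨hρ.1, hρ1⟩
    refine h1.trans ?_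
    apply mul_le_mul_of_nonneg_left _ hE0
    rw [Real.rpow_neg (by linarith), ← Real.inv_rpow (by linarith)]
    apply Real.rpow_le_rpow _ _ hexp
    · exact inv_nonneg.2 (by linarith)
    · rw [inv_le_comm₀ (by linarith) (by positivity)]
      have := hρ.2
      rw [← one_div]
      linarith
  have hfin := var_flow hd1 hd (fun S z => Lib_helper96.QP.sum_abs_D_le (fun x => hf _)
    (lowDeg_res hd S z)) hα hα1 hk hk1 hM
  rw [hE] at hfin
  unfold Err at hfin
  linarith

end Pool.Agent.Lib_helper8.QP
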