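import Pool.Agent.Lib_helper8.QP.EvBasic
import Pool.Agent.Lib_helper96.QP_T2
import Pool.Agent.Lib_helper9.QP_T3
import Pool.Agent.Lib_helper14.AAQ.Cti

/-! The key lemma. -/

set_option autoImplicit false
set_option linter.unusedSectionVars false

open Finset Polynomial

namespace Pool.Agent.Lib_helper8.QP

open Pool.Agent.Lib_helper30.AA

variable {I : Type} [Fintype I] [DecidableEq I]

lemma inf_nonneg (f : (I → Bool) → ℝ) (j : I) : 0 ≤ inf f j := av_nonneg fun _ => sq_nonneg _

theorem cti {d : ℕ} (hd1 : 1 ≤ d) {f : (I → Bool) → ℝ} (hf : ∀ x, |f x| ≤ 1)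
    (hd : LowDeg d f) {K R τ m0 W : ℝ} (hK : 1 ≤ K) (hτ : 0 < τ) (hm0 : 0 < m0) (hW0 : 0 ≤ W)
    (hW : 2 * Real.exp 1 * (d / m0) * (d / τ) ≤ Real.exp W) :
    ∑ j ∈ univ.filter (fun j => m0 ≤ inf f j ∧
        R < ∑ i ∈ univ.filter (fun i => τ ≤ inf f i ∧ inf f i ≤ K * inf f j),
          (vv f i j / inf f j) ^ 2), inf f j
      ≤ 360 * (d : ℝ) ^ 7 * K ^ 2 * (4 * d + 2 * W) ^ 6 * Real.exp (-R / 4) :=
  Lib_helper14.AAQ.cti_of hd1 (Lib_helper96.QP.abs_D_le_one hf) (Lib_helper96.QP.sum_abs_D_le hf hd)
    (fun j => lowDeg_sq (lowDeg_D hd j)) (Lib_helper9.QP.abs_vv_le f)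
    (Lib_helper9.QP.sum_inf_le hf hd) (Lib_helper9.QP.sum_vv_sq_div_le hd)
    (Lib_helper9.QP.sum_vv_sq_le hd)
    (fun j b hb hm => Lib_helper96.QP.jensen (fun x => sq_nonneg (D j f x)) hb hm)
    hK hτ hm0 hW0 hW

/-- heavy part -/
lemma heavy_part {d : ℕ} {f : (I → Bool) → ℝ} (hd : LowDeg d f) {α K : ℝ} (hα : 0 < α)
    (hK : 1 ≤ K) (hKα : 4 * d ≤ K ^ α) :
    ∑ j, inf f j ^ α * ∑ i ∈ univ.filter (fun i => ¬ inf f i ≤ K * inf f j),
      vv f i j ^ 2 / inf f j ≤ ∑ j, inf f j ^ (1 + α) := by
  have hK0 : 0 < K := by linarith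
  have h1 : ∀ i j, ¬ inf f i ≤ K * inf f j → inf f j ^ α ≤ (inf f i / K) ^ α := by
    intro i j h
    push Not at h
    apply Real.rpow_le_rpow (inf_nonneg f j) _ hα.le
    rw [le_div_iff₀ hK0]; linarith
  calc ∑ j, inf f j ^ α * ∑ i ∈ univ.filter (fun i => ¬ inf f i ≤ K * inf f j),
        vv f i j ^ 2 / inf f j
      = ∑ j, ∑ i, (if ¬ inf f i ≤ K * inf f j then
          inf f j ^ α * (vv f i j ^ 2 / inf f j) else 0) := by
        refine Finset.sum_congr rfl fun j _ => ?_
        rw [Finset.mul_sum, Finset.sum_filter]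
    _ ≤ ∑ j, ∑ i, (inf f i / K) ^ α * (vv f i j ^ 2 / inf f j) := by
        refine Finset.sum_le_sum fun j _ => Finset.sum_le_sum fun i _ => ?_
        have h2 : 0 ≤ vv f i j ^ 2 / inf f j := div_nonneg (sq_nonneg _) (inf_nonneg f j)
        split_ifs with h
        · exact mul_nonneg (Real.rpow_nonneg (div_nonneg (inf_nonneg f i) hK0.le) _) h2
        · exact mul_le_mul_of_nonneg_right (h1 i j h) h2
    _ = ∑ i, (inf f i / K) ^ α * ∑ j, vv f i j ^ 2 / inf f j := by
        rw [Finset.sum_comm]
        refine Finset.sum_congr rfl fun i _ => ?_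
        rw [Finset.mul_sum]
    _ ≤ ∑ i, (inf f i / K) ^ α * (4 * d * inf f i) := by
        refine Finset.sum_le_sum fun i _ => ?_
        apply mul_le_mul_of_nonneg_left (Lib_helper9.QP.sum_vv_sq_div_le hd i)
        exact Real.rpow_nonneg (div_nonneg (inf_nonneg f i) hK0.le) _
    _ ≤ ∑ j, inf f j ^ (1 + α) := by
        refine Finset.sum_le_sum fun i _ => ?_
        have h0 := inf_nonneg f i
        rw [Real.div_rpow h0 hK0.le]
        have hKp : 0 < K ^ α := Real.rpow_pos_of_pos hK0 _
        rcases h0.eq_or_lt with h | h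
        · rw [← h]
          simp [Real.zero_rpow (by linarith : (1 + α) ≠ 0)]
        · rw [Real.rpow_add h, Real.rpow_one]
          have h3 : 0 ≤ inf f i ^ α := Real.rpow_nonneg h0 _
          rw [div_mul_eq_mul_div, div_le_iff₀ hKp]
          nlinarith [mul_le_mul_of_nonneg_left hKα (mul_nonneg h0 h3)]

theorem key {d : ℕ} (hd1 : 1 ≤ d) {f : (I → Bool) → ℝ} (hf : ∀ x, |f x| ≤ 1)
    (hd : LowDeg d f) {α K R m0 W : ℝ} (hα : 0 < α) (hα1 : α ≤ 1) (hK : 1 ≤ K)
    (hKα : 4 * d ≤ K ^ α) (hR : 0 ≤ R) (hm0 : 0 < m0) (hm1 : m0 ≤ 1) (hW0 : 0 ≤ W)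
    (hW : 2 * Real.exp 1 * (d / m0) * (d / (m0 ^ 2 / (4096 * d ^ 4))) ≤ Real.exp W) :
    ∑ j, inf f j ^ α * ∑ i, vv f i j ^ 2 / inf f j ≤ (R + 2) * ∑ j, inf f j ^ (1 + α) +
      (4 * (d : ℝ) ^ 2 * m0 ^ α +
        4 * d * (360 * (d : ℝ) ^ 7 * K ^ 2 * (4 * d + 2 * W) ^ 6 * Real.exp (-R / 4))) := by
  have hd0 : (1 : ℝ) ≤ d := by exact_mod_cast hd1
  have hdpos : (0 : ℝ) < d := by linarith
  set τ : ℝ := m0 ^ 2 / (4096 * (d : ℝ) ^ 4) with hτdef
  have hτ : 0 < τ := by positivity
  set bad : Finset I := univ.filter (fun j => m0 ≤ inf f j ∧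
        R < ∑ i ∈ univ.filter (fun i => τ ≤ inf f i ∧ inf f i ≤ K * inf f j),
          (vv f i j / inf f j) ^ 2) with hbad
  have hcti := cti hd1 hf hd hK (R := R) hτ hm0 hW0 hW
  rw [← hbad] at hcti
  have hinf1 : ∀ j, inf f j ≤ 1 := by
    intro j
    refine av_le_const fun x => ?_
    have h1 : |D j f x| ≤ 1 := by
      unfold D
      rw [abs_div, abs_two, div_le_one (by norm_num)]
      calc |f (Function.update x j false) - f (Function.update x j true)|
          ≤ |f (Function.update x j false)| + |f (Function.update x j true)| := abs_sub _ _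
        _ ≤ 1 + 1 := add_le_add (hf _) (hf _)
        _ = 2 := by norm_num
    rw [← sq_abs]
    nlinarith [abs_nonneg (D j f x)]
  -- pointwise bound for each j
  have hj : ∀ j, inf f j ^ α * ∑ i, vv f i j ^ 2 / inf f j ≤
      inf f j ^ α * ∑ i ∈ univ.filter (fun i => ¬ inf f i ≤ K * inf f j), vv f i j ^ 2 / inf f j +
      ((R + 1) * inf f j ^ (1 + α) + 4 * d * m0 ^ α * inf f j +
        4 * d * (if j ∈ bad then inf f j else 0)) := by
    intro j
    have h0 := inf_nonneg f j
    have hα0 : 0 ≤ inf f j ^ α := Real.rpow_nonneg h0 _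
    have hm0α : 0 ≤ m0 ^ α := Real.rpow_nonneg hm0.le _
    have hbadnn : 0 ≤ (if j ∈ bad then inf f j else 0) := by split_ifs <;> [exact h0; exact le_rfl]
    have hnn : ∀ i, 0 ≤ vv f i j ^ 2 / inf f j := fun i => div_nonneg (sq_nonneg _) h0
    have hrp : 0 ≤ inf f j ^ (1 + α) := Real.rpow_nonneg h0 _
    have hspl := Finset.sum_filter_add_sum_filter_not univ (fun i => inf f i ≤ K * inf f j)
      (fun i => vv f i j ^ 2 / inf f j)
    suffices hmain : inf f j ^ α * ∑ i ∈ univ.filter (fun i => inf f i ≤ K * inf f j),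
        vv f i j ^ 2 / inf f j ≤
        ((R + 1) * inf f j ^ (1 + α) + 4 * d * m0 ^ α * inf f j +
        4 * d * (if j ∈ bad then inf f j else 0)) by
      rw [← hspl, mul_add]
      linarith
    rcases h0.eq_or_lt with hz | hpos
    · rw [← hz]
      simp only [div_zero, Finset.sum_const_zero, mul_zero]
      have h1 : 0 ≤ (0 : ℝ) ^ (1 + α) := Real.rpow_nonneg le_rfl _
      have h2 : 0 ≤ (if j ∈ bad then (0 : ℝ) else 0) := by simp
      positivity
    · have hrw : inf f j ^ (1 + α) = inf f j * inf f j ^ α := by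
        rw [Real.rpow_add hpos, Real.rpow_one]
      -- trivial bound
      have htriv : ∑ i ∈ univ.filter (fun i => inf f i ≤ K * inf f j), vv f i j ^ 2 / inf f j ≤
          4 * d * inf f j := by
        calc _ ≤ ∑ i, vv f i j ^ 2 / inf f j :=
              Finset.sum_le_sum_of_subset_of_nonneg (Finset.filter_subset _ _)
                (fun i _ _ => hnn i)
          _ = (∑ i, vv f i j ^ 2) / inf f j := by rw [Finset.sum_div]
          _ ≤ (4 * d * inf f j ^ 2) / inf f j := by
              gcongr; exact Lib_helper9.QP.sum_vv_sq_le hd j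
          _ = 4 * d * inf f j := by field_simp
      by_cases hlt : inf f j < m0
      · have h1 : inf f j ^ α ≤ m0 ^ α := Real.rpow_le_rpow h0 hlt.le hα.le
        calc inf f j ^ α * ∑ i ∈ univ.filter (fun i => inf f i ≤ K * inf f j),
              vv f i j ^ 2 / inf f j ≤ m0 ^ α * (4 * d * inf f j) := by
              apply mul_le_mul h1 htriv (Finset.sum_nonneg fun i _ => hnn i) hm0α
          _ ≤ _ := by
              have : 0 ≤ (R + 1) * inf f j ^ (1 + α) := by positivity
              have : 0 ≤ 4 * d * (if j ∈ bad then inf f j else 0) := by positivity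
              nlinarith
      · push Not at hlt
        by_cases hb : j ∈ bad
        · have h1 : inf f j ^ α ≤ 1 := Real.rpow_le_one h0 (hinf1 j) hα.le
          rw [if_pos hb]
          calc inf f j ^ α * ∑ i ∈ univ.filter (fun i => inf f i ≤ K * inf f j),
                vv f i j ^ 2 / inf f j ≤ 1 * (4 * d * inf f j) := by
                apply mul_le_mul h1 htriv (Finset.sum_nonneg fun i _ => hnn i) zero_le_one
            _ ≤ _ := by
                have : 0 ≤ (R + 1) * inf f j ^ (1 + α) := by positivity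
                have : 0 ≤ 4 * d * m0 ^ α * inf f j := by positivity
                linarith
        · rw [if_neg hb, mul_zero, add_zero]
          have hgood : ∑ i ∈ univ.filter (fun i => τ ≤ inf f i ∧ inf f i ≤ K * inf f j),
              (vv f i j / inf f j) ^ 2 ≤ R := by
            by_contra hcon
            push Not at hcon
            exact hb (by rw [hbad, Finset.mem_filter]; exact ⟨Finset.mem_univ _, hlt, hcon⟩)
          -- super-light part
          have hsl : (∑ i ∈ univ.filter (fun i => inf f i < τ), (vv f i j / inf f j) ^ 2) ≤ 1 := by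
            set B : ℝ := 2 * Real.sqrt τ / Real.sqrt (inf f j) with hB
            have hs0 : 0 < Real.sqrt (inf f j) := Real.sqrt_pos.2 hpos
            have hsτ : 0 < Real.sqrt τ := Real.sqrt_pos.2 hτ
            have hBpos : 0 < B := by positivity
            have hA : ∀ i ∈ univ.filter (fun i => inf f i < τ), |vv f i j| ≤ B * inf f j := by
              intro i hi
              rw [Finset.mem_filter] at hi
              have h2 := Lib_helper9.QP.vv_sq_le f i j
              have h3 : vv f i j ^ 2 ≤ (B * inf f j) ^ 2 := by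
                calc vv f i j ^ 2 ≤ 4 * inf f j * inf f i := h2
                  _ ≤ 4 * inf f j * τ := by
                      have := hi.2.le
                      gcongr
                  _ = (B * inf f j) ^ 2 := by
                      rw [hB, mul_pow, div_pow, mul_pow, Real.sq_sqrt hτ.le,
                        Real.sq_sqrt h0]
                      field_simp
                      norm_num
              exact abs_le_of_sq_le_sq h3 (by positivity)
            have h4 := Lib_helper96.QP.superlight hd1 hf hd hpos _ hBpos hA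
            have h5 : Real.sqrt τ = m0 / (64 * (d : ℝ) ^ 2) := by
              rw [hτdef, Real.sqrt_eq_iff_mul_self_eq (by positivity) (by positivity)]
              field_simp
              norm_num
            have h6 : 32 * (d : ℝ) ^ 2 * B ≤ 1 * Real.sqrt (inf f j) := by
              rw [hB, h5, one_mul, mul_div_assoc', div_le_iff₀ hs0, ← sq, Real.sq_sqrt h0]
              calc 32 * (d : ℝ) ^ 2 * (2 * (m0 / (64 * (d : ℝ) ^ 2))) = m0 := by
                    field_simp; norm_num
                _ ≤ inf f j := hlt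
            exact le_of_mul_le_mul_right (h4.trans h6) hs0
          have hsplit : ∑ i ∈ univ.filter (fun i => inf f i ≤ K * inf f j),
              (vv f i j / inf f j) ^ 2 ≤ R + 1 := by
            calc ∑ i ∈ univ.filter (fun i => inf f i ≤ K * inf f j), (vv f i j / inf f j) ^ 2
                ≤ ∑ i ∈ univ.filter (fun i => τ ≤ inf f i ∧ inf f i ≤ K * inf f j) ∪
                    univ.filter (fun i => inf f i < τ), (vv f i j / inf f j) ^ 2 := by
                  apply Finset.sum_le_sum_of_subset_of_nonneg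
                  · intro i hi
                    simp only [Finset.mem_filter, Finset.mem_univ, true_and,
                      Finset.mem_union] at *
                    rcases lt_or_ge (inf f i) τ with h | h
                    · right; exact h
                    · left; exact ⟨h, hi⟩
                  · intro i _ _; positivity
              _ ≤ ∑ i ∈ univ.filter (fun i => τ ≤ inf f i ∧ inf f i ≤ K * inf f j),
                    (vv f i j / inf f j) ^ 2 +
                  ∑ i ∈ univ.filter (fun i => inf f i < τ), (vv f i j / inf f j) ^ 2 := by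
                  rw [← Finset.sum_union_inter]
                  have : 0 ≤ ∑ i ∈ univ.filter (fun i => τ ≤ inf f i ∧ inf f i ≤ K * inf f j) ∩
                    univ.filter (fun i => inf f i < τ), (vv f i j / inf f j) ^ 2 :=
                    Finset.sum_nonneg fun i _ => by positivity
                  linarith
              _ ≤ R + 1 := add_le_add hgood hsl
          have h7 : ∑ i ∈ univ.filter (fun i => inf f i ≤ K * inf f j), vv f i j ^ 2 / inf f j =
              inf f j * ∑ i ∈ univ.filter (fun i => inf f i ≤ K * inf f j),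
                (vv f i j / inf f j) ^ 2 := by
            rw [Finset.mul_sum]
            refine Finset.sum_congr rfl fun i _ => ?_
            field_simp
          rw [h7, hrw]
          have h8 : 0 ≤ 4 * d * m0 ^ α * inf f j := by positivity
          calc inf f j ^ α * (inf f j * ∑ i ∈ univ.filter (fun i => inf f i ≤ K * inf f j),
                (vv f i j / inf f j) ^ 2) ≤ inf f j ^ α * (inf f j * (R + 1)) := by gcongr
            _ ≤ _ := by nlinarith
  have hh := heavy_part hd hα hK hKα
  calc ∑ j, inf f j ^ α * ∑ i, vv f i j ^ 2 / inf f j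
      ≤ ∑ j, (inf f j ^ α * ∑ i ∈ univ.filter (fun i => ¬ inf f i ≤ K * inf f j),
          vv f i j ^ 2 / inf f j +
        ((R + 1) * inf f j ^ (1 + α) + 4 * d * m0 ^ α * inf f j +
        4 * d * (if j ∈ bad then inf f j else 0))) := Finset.sum_le_sum fun j _ => hj j
    _ = ∑ j, inf f j ^ α * ∑ i ∈ univ.filter (fun i => ¬ inf f i ≤ K * inf f j),
          vv f i j ^ 2 / inf f j + ((R + 1) * ∑ j, inf f j ^ (1 + α) +
          4 * d * m0 ^ α * ∑ j, inf f j + 4 * d * ∑ j ∈ bad, inf f j) := by
        rw [Finset.sum_add_distrib, Finset.sum_add_distrib, Finset.sum_add_distrib,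
          ← Finset.mul_sum, ← Finset.mul_sum, ← Finset.mul_sum, Finset.sum_ite_mem,
          Finset.univ_inter]
    _ ≤ ∑ j, inf f j ^ (1 + α) + ((R + 1) * ∑ j, inf f j ^ (1 + α) +
          4 * d * m0 ^ α * d + 4 * d * (360 * (d : ℝ) ^ 7 * K ^ 2 * (4 * d + 2 * W) ^ 6 *
            Real.exp (-R / 4))) := by
        have h1 := Lib_helper9.QP.sum_inf_le hf hd
        have h2 : 0 ≤ 4 * d * m0 ^ α := by
          have := Real.rpow_nonneg hm0.le α
          positivity
        gcongr
    _ = _ := by ring

end Pool.Agent.Lib_helper8.QP
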