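import Pool.Agent.Lib_helper8.QP.VarFlow
import Pool.Agent.Lib_helper8.QP.Key

/-! The flow of `Σ_j m_j^{1+α}` under random restrictions. -/

set_option autoImplicit false
set_option linter.unusedSectionVars false

open Finset Polynomial

namespace Pool.Agent.Lib_helper8.QP

open Pool.Agent.Lib_helper30.AA Pool.Agent.Lib_helper40.QP

variable {I : Type} [Fintype I] [DecidableEq I]

/-- the error term of the key lemma -/
noncomputable def Err (d : ℕ) (α K R m0 W : ℝ) : ℝ :=
  4 * (d : ℝ) ^ 2 * m0 ^ α +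
    4 * d * (360 * (d : ℝ) ^ 7 * K ^ 2 * (4 * d + 2 * W) ^ 6 * Real.exp (-R / 4))

lemma Err_nonneg {d : ℕ} {α K R m0 W : ℝ} (hm0 : 0 ≤ m0) : 0 ≤ Err d α K R m0 W := by
  have h2 : 0 ≤ m0 ^ α := Real.rpow_nonneg hm0 _
  unfold Err
  have : 0 ≤ (4 * (d : ℝ) + 2 * W) ^ 6 := by positivity
  positivity

theorem psi_flow {d : ℕ} (hd1 : 1 ≤ d) {f : (I → Bool) → ℝ} (hf : ∀ x, |f x| ≤ 1)
    (hd : LowDeg d f) {α K R m0 W θ : ℝ} (hα : 0 < α) (hα1 : α ≤ 1) (hK : 1 ≤ K)
    (hKα : 4 * d ≤ K ^ α) (hR : 0 ≤ R) (hm0 : 0 < m0) (hm1 : m0 ≤ 1) (hW0 : 0 ≤ W)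
    (hW : 2 * Real.exp 1 * (d / m0) * (d / (m0 ^ 2 / (4096 * d ^ 4))) ≤ Real.exp W)
    (hθ : ∀ j, inf f j ≤ θ) (hθ0 : 0 ≤ θ) {ρ : ℝ} (hρ : ρ ∈ Set.Ico (0 : ℝ) 1) :
    rs ρ (fun S => av (fun z => ∑ j, inf (res S z f) j ^ (1 + α))) ≤
      (d * θ ^ α + Err d α K R m0 W) * (1 - ρ) ^ (-(α * (R + 2))) := by
  have hE0 : 0 ≤ Err d α K R m0 W := Err_nonneg hm0.le
  set Q : Finset I → ℝ := fun S => av (fun z => ∑ j, inf (res S z f) j ^ (1 + α)) with hQ
  have hA : 0 < α * (R + 2) := by positivity
  have hkey : ∀ S, av (fun z => ∑ i, ∑ j, inf (res S z f) j ^ α *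
      (vv (res S z f) i j ^ 2 / inf (res S z f) j)) ≤ (R + 2) * Q S + Err d α K R m0 W := by
    intro S
    calc av (fun z => ∑ i, ∑ j, inf (res S z f) j ^ α *
          (vv (res S z f) i j ^ 2 / inf (res S z f) j))
        ≤ av (fun z => (R + 2) * ∑ j, inf (res S z f) j ^ (1 + α) + Err d α K R m0 W) := by
          refine av_mono fun z => ?_
          have h := key hd1 (f := res S z f) (fun x => hf _) (lowDeg_res hd S z) hα hα1 hK hKα hR
            hm0 hm1 hW0 hW
          rw [Finset.sum_comm]
          refine le_trans (le_of_eq ?_) h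
          refine Finset.sum_congr rfl fun j _ => ?_
          rw [Finset.mul_sum]
      _ = (R + 2) * Q S + Err d α K R m0 W := by
          rw [av_add, av_mul_left, av_const]
  have hgr := gronwall (F := fun ρ => rs ρ Q) (A := α * (R + 2)) (B := α * Err d α K R m0 W) hA
    (fun ρ hρ => ?_) hρ
  · have h0 : rs 0 Q = ∑ j, inf f j ^ (1 + α) := by
      have h1 : rs 0 Q = Q ∅ := by
        unfold rs
        rw [Finset.sum_eq_single (∅ : Finset I)]
        · simp
        · intro S _ hS
          rw [zero_pow (by rwa [ne_eq, Finset.card_eq_zero])]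
          ring
        · intro h; exact absurd (Finset.mem_univ _) h
      rw [h1, hQ]
      simp only
      have h2 : ∀ z : I → Bool, res ∅ z f = f := fun z => by
        ext x; simp [res]
      simp_rw [h2]
      rw [av_const]
    have h1 : rs 0 Q ≤ d * θ ^ α := by
      rw [h0]
      calc ∑ j, inf f j ^ (1 + α) ≤ ∑ j, inf f j * θ ^ α := by
            refine Finset.sum_le_sum fun j _ => ?_
            have h2 := inf_nonneg f j
            rcases h2.eq_or_lt with h | h
            · rw [← h]; simp [Real.zero_rpow (by linarith : (1 + α) ≠ 0)]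
            · rw [Real.rpow_add h, Real.rpow_one]
              exact mul_le_mul_of_nonneg_left (Real.rpow_le_rpow h2 (hθ j) hα.le) h2
        _ = (∑ j, inf f j) * θ ^ α := by rw [Finset.sum_mul]
        _ ≤ d * θ ^ α := mul_le_mul_of_nonneg_right (Lib_helper9.QP.sum_inf_le hf hd)
              (Real.rpow_nonneg hθ0 _)
    have hBA : α * Err d α K R m0 W / (α * (R + 2)) = Err d α K R m0 W / (R + 2) := by
      field_simp
    rw [hBA] at hgr
    have h2 : Err d α K R m0 W / (R + 2) ≤ Err d α K R m0 W :=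
      div_le_self hE0 (by linarith)
    have h3 : 0 ≤ Err d α K R m0 W / (R + 2) := by positivity
    have h4 : 0 ≤ (1 - ρ) ^ (-(α * (R + 2))) := Real.rpow_nonneg (by linarith [hρ.2]) _
    calc rs ρ Q ≤ rs ρ Q + Err d α K R m0 W / (R + 2) := by linarith
      _ ≤ (rs 0 Q + Err d α K R m0 W / (R + 2)) * (1 - ρ) ^ (-(α * (R + 2))) := hgr
      _ ≤ _ := mul_le_mul_of_nonneg_right (add_le_add h1 h2) h4
  · obtain ⟨F', h1, h2⟩ := russo Q hρ.2
    refine ⟨F', h1, ?_⟩
    rw [h2]
    calc rs ρ (fun S => ∑ i ∈ Sᶜ, (Q (insert i S) - Q S))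
        ≤ rs ρ (fun S => α * ((R + 2) * Q S + Err d α K R m0 W)) := by
          refine rs_mono hρ.1 hρ.2.le fun S => ?_
          calc ∑ i ∈ Sᶜ, (Q (insert i S) - Q S)
              ≤ ∑ i ∈ Sᶜ, av (fun z => α * ∑ j, inf (res S z f) j ^ α *
                  (vv (res S z f) i j ^ 2 / inf (res S z f) j)) := by
                refine Finset.sum_le_sum fun i hi => ?_
                have h3 := Lib_helper83.QP.step_inf hα hα1 f (Finset.mem_compl.1 hi)
                rw [av_add] at h3
                have h4 : Q (insert i S) ≤ Q S + av (fun z => α * ∑ j, inf (res S z f) j ^ α *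
                  (vv (res S z f) i j ^ 2 / inf (res S z f) j)) := h3
                linarith
            _ ≤ ∑ i, av (fun z => α * ∑ j, inf (res S z f) j ^ α *
                  (vv (res S z f) i j ^ 2 / inf (res S z f) j)) := by
                refine Finset.sum_le_sum_of_subset_of_nonneg (Finset.subset_univ _)
                  fun i _ _ => av_nonneg fun z => mul_nonneg hα.le
                    (Finset.sum_nonneg fun j _ => ?_)
                have h5 := inf_nonneg (res S z f) j
                have h6 := Real.rpow_nonneg h5 α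
                positivity
            _ = α * av (fun z => ∑ i, ∑ j, inf (res S z f) j ^ α *
                  (vv (res S z f) i j ^ 2 / inf (res S z f) j)) := by
                rw [← av_sum, ← av_mul_left]
                congr 1
                ext z
                rw [Finset.mul_sum]
            _ ≤ α * ((R + 2) * Q S + Err d α K R m0 W) :=
                mul_le_mul_of_nonneg_left (hkey S) hα.le
      _ = α * (R + 2) * rs ρ Q + α * Err d α K R m0 W := by
          rw [rs_mul_left, rs_add, rs_mul_left, rs_const]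
          ring

end Pool.Agent.Lib_helper8.QP
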